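import Pool.Agent.helper68.FY.Spec

set_option autoImplicit false

namespace Pool.Agent.helper68.FY

open Finset

open Classical in
/-- the combinatorial inequality behind `CS` -/
lemma CS_count {X : Type} (S : Finset X) (r : V4 → X → X → Prop) (κ G : ℕ)
    (hκ : ∀ g ∈ PB G, ∀ x ∈ S, ∀ T : Finset X, T ⊆ S → (∀ y ∈ T, r g x y) → T.card ≤ κ)
    (hcomp : ∀ g ∈ PB G, ∀ h ∈ PB G, ∀ x ∈ S, ∀ y ∈ S, ∀ z ∈ S, r g x z → r h y z → r (am h g) x y) :
    (cnt S r G) ^ 2 ≤ S.card * (κ * ∑ w ∈ PB G ×ˢ PB G, pc S (r (am w.2 w.1))) := by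
  set P := PB G with hP
  let N : X → ℕ := fun z => ∑ u ∈ P ×ˢ S, if r u.1 u.2 z then 1 else 0
  have h1 : cnt S r G = ∑ z ∈ S, N z := by
    have : cnt S r G = ∑ g ∈ P, ∑ x ∈ S, ∑ z ∈ S, if r g x z then 1 else 0 := by
      unfold cnt pc
      refine Finset.sum_congr rfl fun g _ => ?_
      rw [Finset.card_filter, Finset.sum_product]
    rw [this]
    show _ = ∑ z ∈ S, ∑ u ∈ P ×ˢ S, if r u.1 u.2 z then 1 else 0
    symm
    rw [Finset.sum_comm, Finset.sum_product]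
  have h2 : ∑ z ∈ S, N z * N z ≤ κ * ∑ w ∈ P ×ˢ P, pc S (r (am w.2 w.1)) := by
    have e1 : ∑ z ∈ S, N z * N z = ∑ u ∈ P ×ˢ S, ∑ v ∈ P ×ˢ S, ∑ z ∈ S,
        (if r u.1 u.2 z then 1 else 0) * (if r v.1 v.2 z then 1 else 0) := by
      have : ∀ z ∈ S, N z * N z = ∑ u ∈ P ×ˢ S, ∑ v ∈ P ×ˢ S,
          (if r u.1 u.2 z then 1 else 0) * (if r v.1 v.2 z then 1 else 0) := by
        intro z _
        show (∑ u ∈ P ×ˢ S, if r u.1 u.2 z then 1 else 0) *
          (∑ u ∈ P ×ˢ S, if r u.1 u.2 z then 1 else 0) = _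
        rw [Finset.sum_mul_sum]
      rw [Finset.sum_congr rfl this, Finset.sum_comm]
      refine Finset.sum_congr rfl fun u _ => ?_
      rw [Finset.sum_comm]
    rw [e1]
    have e2 : ∀ u ∈ P ×ˢ S, ∀ v ∈ P ×ˢ S, ∑ z ∈ S,
        (if r u.1 u.2 z then 1 else 0) * (if r v.1 v.2 z then 1 else 0) ≤
        κ * (if r (am v.1 u.1) u.2 v.2 then 1 else 0) := by
      intro u hu v hv
      obtain ⟨hu1, hu2⟩ := Finset.mem_product.1 hu
      obtain ⟨hv1, hv2⟩ := Finset.mem_product.1 hv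
      by_cases hr : r (am v.1 u.1) u.2 v.2
      · rw [if_pos hr, mul_one]
        refine le_trans (Finset.sum_le_sum (g := fun z => if r u.1 u.2 z then 1 else 0) ?_) ?_
        · intro z _
          split_ifs <;> simp
        · rw [← Finset.card_filter]
          exact hκ u.1 hu1 u.2 hu2 _ (Finset.filter_subset _ _)
            fun y hy => (Finset.mem_filter.1 hy).2
      · rw [if_neg hr, mul_zero]
        refine le_of_eq (Finset.sum_eq_zero fun z hz => ?_)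
        by_cases a : r u.1 u.2 z
        · by_cases b : r v.1 v.2 z
          · exact absurd (hcomp u.1 hu1 v.1 hv1 u.2 hu2 v.2 hv2 z hz a b) hr
          · rw [if_neg b, mul_zero]
        · rw [if_neg a, zero_mul]
    refine le_trans (Finset.sum_le_sum fun u hu => Finset.sum_le_sum fun v hv => e2 u hu v hv) ?_
    refine le_of_eq ?_
    have e3 : ∑ w ∈ P ×ˢ P, pc S (r (am w.2 w.1)) =
        ∑ u ∈ P ×ˢ S, ∑ v ∈ P ×ˢ S, (if r (am v.1 u.1) u.2 v.2 then 1 else 0) := by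
      rw [Finset.sum_product, Finset.sum_product]
      refine Finset.sum_congr rfl fun g _ => ?_
      have : ∀ x ∈ S, ∑ v ∈ P ×ˢ S, (if r (am v.1 (g, x).1) (g, x).2 v.2 then 1 else 0) =
          ∑ h ∈ P, ∑ y ∈ S, (if r (am h g) x y then 1 else 0) := by
        intro x _
        rw [Finset.sum_product]
      rw [Finset.sum_congr rfl this, Finset.sum_comm]
      refine Finset.sum_congr rfl fun h _ => ?_
      unfold pc
      rw [Finset.card_filter, Finset.sum_product]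
    rw [e3, Finset.mul_sum]
    refine Finset.sum_congr rfl fun u _ => ?_
    rw [Finset.mul_sum]
  calc (cnt S r G) ^ 2 = (∑ z ∈ S, N z) ^ 2 := by rw [h1]
    _ ≤ S.card * ∑ z ∈ S, N z ^ 2 := sq_sum_le_card_mul_sum_sq
    _ = S.card * ∑ z ∈ S, N z * N z := by
        congr 1
        exact Finset.sum_congr rfl fun z _ => sq _
    _ ≤ _ := Nat.mul_le_mul_left _ h2

open Classical in
theorem CS (hWS : WS_stmt) : CS_stmt := by
  intro X S r κ G D s hG hD hκ hcomp hsc hcnt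
  have hmono : ∀ (h : V4) (t : ℤ), prim h → t ≠ 0 → |t| ≤ 2 * G * G →
      ((pc S (r (t • h)) : ℕ) : ℝ) ≤ ((pc S (r h) : ℕ) : ℝ) := by
    intro h t hp ht hle
    have : pc S (r (t • h)) ≤ pc S (r h) := by
      unfold pc
      refine Finset.card_le_card fun w hw => ?_
      obtain ⟨hw1, hw2⟩ := Finset.mem_filter.1 hw
      obtain ⟨hx, hy⟩ := Finset.mem_product.1 hw1
      exact Finset.mem_filter.2 ⟨hw1, hsc h t hp ht hle w.1 hx w.2 hy hw2⟩
    exact_mod_cast this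
  have hsum : ∀ G' : ℕ, 1 ≤ G' → G' ≤ 2 * G * G →
      ∑ h ∈ PB G', ((pc S (r h) : ℕ) : ℝ) ≤ (s * S.card) * (G' : ℝ) ^ 2 := by
    intro G' h1 h2
    have h3 := hcnt G' h1 h2
    have h4 : ((cnt S r G' : ℕ) : ℝ) = ∑ h ∈ PB G', ((pc S (r h) : ℕ) : ℝ) := by
      unfold cnt
      push_cast
      rfl
    rw [← h4]
    linarith
  have hw := hWS G G D (fun h => ((pc S (r h) : ℕ) : ℝ)) (s * S.card) hG le_rfl hD
    (fun h => Nat.cast_nonneg _) hmono hsum
  have hsub : PB G ⊆ NB G G := by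
    intro g hg
    obtain ⟨h1, h2, h3⟩ := Finset.mem_filter.1 hg
    have hb := Fintype.mem_piFinset.1 h1
    have h4 : ∀ i, |g i| ≤ (G : ℤ) := fun i => abs_le.2 (Finset.mem_Icc.1 (hb i))
    exact Finset.mem_filter.2 ⟨h1, h2, h4 2, h4 3⟩
  have h5 : ∑ w ∈ PB G ×ˢ PB G, ((pc S (r (am w.2 w.1)) : ℕ) : ℝ) ≤
      ∑ w ∈ NB G G ×ˢ NB G G, ((pc S (r (am w.2 w.1)) : ℕ) : ℝ) :=
    Finset.sum_le_sum_of_subset_of_nonneg (Finset.product_subset_product hsub hsub)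
      fun _ _ _ => Nat.cast_nonneg _
  have h6 : ((cnt S r G : ℕ) : ℝ) ^ 2 ≤
      (S.card : ℝ) * ((κ : ℝ) * ∑ w ∈ PB G ×ˢ PB G, ((pc S (r (am w.2 w.1)) : ℕ) : ℝ)) := by
    exact_mod_cast CS_count S r κ G hκ hcomp
  have h7 : (S.card : ℝ) * ((κ : ℝ) * ∑ w ∈ PB G ×ˢ PB G, ((pc S (r (am w.2 w.1)) : ℕ) : ℝ)) ≤
      (S.card : ℝ) * ((κ : ℝ) * (6144 * (D : ℝ) ^ 2 * (G : ℝ) ^ 3 * G * (s * S.card) *
        (1 + Nat.log 2 (2 * G * G)))) := by
    refine mul_le_mul_of_nonneg_left ?_ (Nat.cast_nonneg _)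
    exact mul_le_mul_of_nonneg_left (h5.trans hw) (Nat.cast_nonneg _)
  refine (h6.trans h7).trans (le_of_eq ?_)
  ring

end Pool.Agent.helper68.FY
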